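import Mathlib

/-!
# A continuum, two-dimensional at each point, with a monotone map onto the unit interval that
admits no closed zero-dimensional section
-/

open unitInterval Topology Set

universe u

namespace Pool.Agent.Results.MP_b0a983_gt.Counterexample

/-- `DimLT n X`: the (small inductive) dimension of the space `X` is less than `n`, i.e. at most
`n - 1`.  The empty space is the only one of dimension `-1`, and `X` has dimension at most `n` iff
every point has arbitrarily small open neighbourhoods whose boundaries have dimension at most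
`n - 1`. -/
def DimLT : ℕ → (X : Type u) → [TopologicalSpace X] → Prop
  | 0, X, _ => IsEmpty X
  | n + 1, X, _ => ∀ x : X, ∀ U ∈ 𝓝 x, ∃ V : Set X, IsOpen V ∧ x ∈ V ∧ V ⊆ U ∧ DimLT n (frontier V)

/-- `LocalDimLE n x`: `ind_x X ≤ n`, i.e. `x` has arbitrarily small open neighbourhoods whose
boundaries have dimension at most `n - 1`. -/
def LocalDimLE {X : Type u} [TopologicalSpace X] (n : ℕ) (x : X) : Prop :=
  ∀ U ∈ 𝓝 x, ∃ V : Set X, IsOpen V ∧ x ∈ V ∧ V ⊆ U ∧ DimLT n (frontier V)

/-- `LocalDimEq n x`: `ind_x X = n`. -/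
def LocalDimEq {X : Type u} [TopologicalSpace X] (n : ℕ) (x : X) : Prop :=
  LocalDimLE n x ∧ ∀ m < n, ¬ LocalDimLE m x

/-! ### Dimension lemmas -/

lemma totallyDisconnectedSpace_of_dimLT_one {X : Type u} [TopologicalSpace X] [T1Space X]
    (h : DimLT 1 X) : TotallyDisconnectedSpace X := by
  refine ⟨fun t _ ht p hp q hq => ?_⟩
  by_contra hne
  obtain ⟨V, hVo, hpV, hVU, hfr⟩ := h p ({q}ᶜ) (isOpen_compl_singleton.mem_nhds hne)
  have hfr' : frontier V = ∅ := by
    simp only [DimLT] at hfr
    exact Set.isEmpty_coe_sort.mp hfr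
  have hcl : IsClopen V := isClopen_iff_frontier_eq_empty.mpr hfr'
  have := ht.subset_isClopen hcl ⟨p, hp, hpV⟩
  exact hVU (this hq) rfl

lemma dimLT_one_of_finite {X : Type u} [TopologicalSpace X] [T1Space X] [Finite X] : DimLT 1 X := by
  intro x U hU
  refine ⟨{x}, isOpen_discrete _, rfl, ?_, ?_⟩
  · rintro y rfl
    exact mem_of_mem_nhds hU
  · simp only [DimLT]
    rw [(isClopen_discrete ({x} : Set X)).frontier_eq]
    infer_instance

lemma dimLT_one_of_isEmpty {X : Type u} [TopologicalSpace X] [IsEmpty X] : DimLT 1 X := by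
  intro x
  exact (IsEmpty.false x).elim

lemma localDimLE_one_of_zero {X : Type u} [TopologicalSpace X] {x : X} (h : LocalDimLE 0 x) :
    LocalDimLE 1 x := by
  intro U hU
  obtain ⟨V, h1, h2, h3, h4⟩ := h U hU
  simp only [DimLT] at h4
  exact ⟨V, h1, h2, h3, dimLT_one_of_isEmpty⟩

lemma finite_two_spheres {x p : ℂ} (hxp : x ≠ p) (r s : ℝ) :
    {q : ℂ | dist q x = r ∧ dist q p = s}.Finite := by
  have : Fact (Module.finrank ℝ ℂ = 2) := ⟨Complex.finrank_real_complex⟩
  by_cases h : {q : ℂ | dist q x = r ∧ dist q p = s}.Subsingleton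
  · exact h.finite
  · rw [Set.not_subsingleton_iff] at h
    obtain ⟨a, ha, b, hb, hab⟩ := h
    refine (Set.toFinite ({a, b} : Set ℂ)).subset ?_
    intro q hq
    have := EuclideanGeometry.eq_of_dist_eq_of_dist_eq_of_finrank_eq_two (V := ℂ) (P := ℂ)
      Complex.finrank_real_complex hxp hab ha.1 hb.1 hq.1 ha.2 hb.2 hq.2
    simpa using this

/-- Every planar set has local dimension at most two. -/
lemma localDimLE_two {X : Set ℂ} (x : X) : LocalDimLE 2 x := by
  intro U hU
  obtain ⟨r, hr, hrU⟩ := Metric.mem_nhds_iff.mp hU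
  refine ⟨Metric.ball x r, Metric.isOpen_ball, Metric.mem_ball_self hr, hrU, ?_⟩
  intro p W hW
  obtain ⟨s, hs, hsW⟩ := Metric.mem_nhds_iff.mp hW
  refine ⟨Metric.ball p s, Metric.isOpen_ball, Metric.mem_ball_self hs, hsW, ?_⟩
  have hpx : dist ((p : X) : ℂ) x = r := by
    have := Metric.frontier_ball_subset_sphere p.2
    simpa [Subtype.dist_eq] using this
  have hne : (x : ℂ) ≠ ((p : X) : ℂ) := by
    intro h
    rw [h, dist_self] at hpx
    exact hr.ne hpx
  have hfin : Finite (frontier (Metric.ball p s)) := by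
    have hf := finite_two_spheres hne r s
    have : Finite {q : ℂ | dist q x = r ∧ dist q ((p : X) : ℂ) = s} := hf
    refine Finite.of_injective (β := {q : ℂ | dist q x = r ∧ dist q ((p : X) : ℂ) = s})
      (fun q => ⟨(((q : frontier (Metric.ball x r)) : X) : ℂ), ?_, ?_⟩) ?_
    · have := Metric.frontier_ball_subset_sphere q.1.2
      simpa [Subtype.dist_eq] using this
    · have := Metric.frontier_ball_subset_sphere q.2
      simpa [Subtype.dist_eq] using this
    · intro q q' h
      simp only [Subtype.mk.injEq] at h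
      exact Subtype.ext (Subtype.ext (Subtype.ext h))
  exact dimLT_one_of_finite

/-! ### The square -/

instance locConnI : LocallyConnectedSpace I := by
  refine locallyConnectedSpace_of_connected_bases (ι := ℝ) (fun (x : I) (ε : ℝ) => Metric.ball x ε)
    (fun _ ε => 0 < ε) (fun x => Metric.nhds_basis_ball) ?_
  intro x ε hε
  apply Set.OrdConnected.isPreconnected
  have : Metric.ball x ε = Subtype.val ⁻¹' (Metric.ball (x : ℝ) ε) := rfl
  rw [this, Real.ball_eq_Ioo]
  exact Set.ordConnected_Ioo.preimage_mono (Subtype.mono_coe _)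

/-- Lifting property of the square. -/
lemma exists_lift (φ : C(I × I, AddCircle (1 : ℝ))) :
    ∃ ψ : C(I × I, ℝ), ∀ z, ((ψ z : ℝ) : AddCircle (1 : ℝ)) = φ z := by
  have cov : IsCoveringMap (fun x : ℝ => (x : AddCircle (1 : ℝ))) := AddCircle.isCoveringMap_coe 1
  let γ : C(I, AddCircle (1 : ℝ)) := φ.comp ((ContinuousMap.const I (0 : I)).prodMk (ContinuousMap.id I))
  obtain ⟨e, he⟩ := QuotientAddGroup.mk_surjective (γ 0)
  obtain ⟨Γ, hΓ, -⟩ := cov.exists_path_lifts γ e he.symm
  have h0 : ∀ a : I, φ (0, a) = ((Γ a : ℝ) : AddCircle (1 : ℝ)) := fun a => (congr_fun hΓ a).symm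
  exact ⟨cov.liftHomotopy φ Γ h0, fun z => congr_fun (cov.liftHomotopy_lifts φ Γ h0) z⟩

lemma circle_half : (((1 : ℝ) / 2 : ℝ) : AddCircle (1 : ℝ)) = ((-((1 : ℝ) / 2) : ℝ) : AddCircle (1 : ℝ)) := by
  have h : (((1 : ℝ) / 2 : ℝ) : AddCircle (1 : ℝ)) - ((-((1 : ℝ) / 2) : ℝ) : AddCircle (1 : ℝ)) = 0 := by
    rw [← AddCircle.coe_sub, AddCircle.coe_eq_zero_iff]
    exact ⟨1, by norm_num⟩
  exact sub_eq_zero.mp h

lemma const_of_int {α : Type*} [TopologicalSpace α] {S : Set α} (hS : IsPreconnected S) {f : α → ℝ}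
    (hf : ContinuousOn f S) (hint : ∀ z ∈ S, ∃ n : ℤ, (n : ℝ) = f z) {x y : α} (hx : x ∈ S)
    (hy : y ∈ S) : f x = f y := by
  have himg : IsPreconnected (f '' S) := hS.image f hf
  have hoc : (f '' S).OrdConnected := himg.ordConnected
  by_contra hne
  wlog hlt : f x < f y generalizing x y
  · exact this hy hx (Ne.symm hne) (lt_of_le_of_ne (not_lt.mp hlt) (Ne.symm hne))
  obtain ⟨n, hn⟩ := hint x hx
  obtain ⟨m, hm⟩ := hint y hy
  have hnm : n < m := by
    rw [← hn, ← hm] at hlt
    exact_mod_cast hlt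
  have hmem : ((n : ℝ) + 1 / 2) ∈ f '' S := by
    apply hoc.out (mem_image_of_mem f hx) (mem_image_of_mem f hy)
    constructor
    · rw [← hn]; linarith
    · rw [← hm]
      have : (n : ℝ) + 1 ≤ m := by exact_mod_cast hnm
      linarith
  obtain ⟨z, hz, hfz⟩ := hmem
  obtain ⟨k, hk⟩ := hint z hz
  rw [hfz] at hk
  have h2 : (2 * k : ℝ) = 2 * n + 1 := by linarith
  have h3 : 2 * k = 2 * n + 1 := by exact_mod_cast h2
  omega

/-- The square is unicoherent. -/
lemma unicoherent {E F : Set (I × I)} (hE : IsClosed E) (hF : IsClosed F) (hEF : E ∪ F = univ)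
    (cE : IsPreconnected E) (cF : IsPreconnected F) : IsPreconnected (E ∩ F) := by
  classical
  rw [isPreconnected_closed_iff]
  intro A A' hA hA' hsub hne hne'
  by_contra hcon
  have hdisj : Disjoint (E ∩ F ∩ A) (E ∩ F ∩ A') := by
    rw [Set.disjoint_iff]
    rintro z ⟨⟨hz, hzA⟩, ⟨-, hzA'⟩⟩
    exact hcon ⟨z, hz, hzA, hzA'⟩
  obtain ⟨lam, h0, h1, -⟩ := exists_continuous_zero_one_of_isClosed
    ((hE.inter hF).inter hA) ((hE.inter hF).inter hA') hdisj
  let φ : I × I → AddCircle (1 : ℝ) := fun z =>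
    if z ∈ E then ((lam z / 2 : ℝ) : AddCircle (1 : ℝ)) else ((-(lam z / 2) : ℝ) : AddCircle (1 : ℝ))
  have hcoe : Continuous (fun x : ℝ => (x : AddCircle (1 : ℝ))) := AddCircle.continuous_mk' 1
  have hφE : EqOn φ (fun z => ((lam z / 2 : ℝ) : AddCircle (1 : ℝ))) E := by
    intro z hz
    simp [φ, hz]
  have hφF : EqOn φ (fun z => ((-(lam z / 2) : ℝ) : AddCircle (1 : ℝ))) F := by
    intro z hz
    by_cases hzE : z ∈ E
    · have hz' : z ∈ E ∩ F := ⟨hzE, hz⟩
      rcases hsub hz' with hzA | hzA'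
      · have : lam z = 0 := h0 ⟨hz', hzA⟩
        simp [φ, hzE, this]
      · have : lam z = 1 := h1 ⟨hz', hzA'⟩
        simp only [φ, hzE, this, if_true]
        exact circle_half
    · simp [φ, hzE]
  have hφcont : Continuous φ := by
    rw [← continuousOn_univ, ← hEF]
    apply ContinuousOn.union_of_isClosed _ _ hE hF
    · exact (hcoe.comp (lam.continuous.div_const 2)).continuousOn.congr hφE
    · exact (hcoe.comp (lam.continuous.div_const 2).neg).continuousOn.congr hφF
  obtain ⟨ψ, hψ⟩ := exists_lift ⟨φ, hφcont⟩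
  have hψ' : ∀ z, ((ψ z : ℝ) : AddCircle (1 : ℝ)) = φ z := hψ
  have hEint : ∀ z ∈ E, ∃ n : ℤ, (n : ℝ) = ψ z - lam z / 2 := by
    intro z hz
    have : ((ψ z - lam z / 2 : ℝ) : AddCircle (1 : ℝ)) = 0 := by
      rw [AddCircle.coe_sub, hψ' z, hφE hz, sub_self]
    obtain ⟨n, hn⟩ := AddCircle.coe_eq_zero_iff (1 : ℝ) |>.mp this
    exact ⟨n, by simpa using hn⟩
  have hFint : ∀ z ∈ F, ∃ n : ℤ, (n : ℝ) = ψ z - -(lam z / 2) := by
    intro z hz
    have : ((ψ z - -(lam z / 2) : ℝ) : AddCircle (1 : ℝ)) = 0 := by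
      rw [AddCircle.coe_sub, hψ' z, hφF hz, sub_self]
    obtain ⟨n, hn⟩ := AddCircle.coe_eq_zero_iff (1 : ℝ) |>.mp this
    exact ⟨n, by simpa using hn⟩
  obtain ⟨a, ha, haA⟩ := hne
  obtain ⟨b, hb, hbA⟩ := hne'
  have hla : lam a = 0 := h0 ⟨ha, haA⟩
  have hlb : lam b = 1 := h1 ⟨hb, hbA⟩
  have e1 := const_of_int cE (f := fun z => ψ z - lam z / 2)
    (by fun_prop) hEint ha.1 hb.1
  have e2 := const_of_int cF (f := fun z => ψ z - -(lam z / 2))
    (by fun_prop) hFint ha.2 hb.2
  simp only [hla, hlb] at e1 e2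
  linarith

/-- The square minus a point is connected. -/
lemma compl_singleton_preconnected (b : I × I) : IsPreconnected ({b}ᶜ : Set (I × I)) := by
  obtain ⟨c1, hc1⟩ : ∃ c : I, c ≠ b.1 := exists_ne b.1
  obtain ⟨c2, hc2⟩ : ∃ c : I, c ≠ b.2 := exists_ne b.2
  have hvert : ∀ x : I, IsPreconnected ((fun y : I => (x, y)) '' univ) := fun x =>
    isPreconnected_univ.image _ (by fun_prop)
  have hhor : ∀ y : I, IsPreconnected ((fun x : I => (x, y)) '' univ) := fun y =>
    isPreconnected_univ.image _ (by fun_prop)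
  have hvs : ∀ x : I, x ≠ b.1 → ((fun y : I => (x, y)) '' univ) ⊆ ({b}ᶜ : Set (I × I)) := by
    rintro x hx _ ⟨y, -, rfl⟩ h
    exact hx (congrArg Prod.fst (mem_singleton_iff.mp h))
  have hhs : ∀ y : I, y ≠ b.2 → ((fun x : I => (x, y)) '' univ) ⊆ ({b}ᶜ : Set (I × I)) := by
    rintro y hy _ ⟨x, -, rfl⟩ h
    exact hy (congrArg Prod.snd (mem_singleton_iff.mp h))
  refine isPreconnected_of_forall (c1, c2) ?_
  rintro ⟨p1, p2⟩ hp
  by_cases h1 : p1 = b.1
  · have h2 : p2 ≠ b.2 := by
      rintro rfl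
      exact hp (by subst h1; rfl)
    refine ⟨((fun x : I => (x, p2)) '' univ) ∪ ((fun y : I => (c1, y)) '' univ),
      union_subset (hhs p2 h2) (hvs c1 hc1), Or.inr ⟨c2, trivial, rfl⟩, Or.inl ⟨p1, trivial, rfl⟩, ?_⟩
    exact IsPreconnected.union (c1, p2) ⟨c1, trivial, rfl⟩ ⟨p2, trivial, rfl⟩ (hhor p2) (hvert c1)
  · refine ⟨((fun y : I => (p1, y)) '' univ) ∪ ((fun x : I => (x, c2)) '' univ),
      union_subset (hvs p1 h1) (hhs c2 hc2), Or.inr ⟨c1, trivial, rfl⟩, Or.inl ⟨p2, trivial, rfl⟩, ?_⟩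
    exact IsPreconnected.union (p1, c2) ⟨c2, trivial, rfl⟩ ⟨p1, trivial, rfl⟩ (hvert p1) (hhor c2)


lemma frontier_component_subset {G : Set (I × I)} (hG : IsOpen G) (x : I × I) :
    frontier (connectedComponentIn G x) ⊆ Gᶜ := by
  intro y hy hyG
  have hCo : IsOpen (connectedComponentIn G x) := hG.connectedComponentIn
  have hCy : IsOpen (connectedComponentIn G y) := hG.connectedComponentIn
  rw [hCo.frontier_eq] at hy
  obtain ⟨hy1, hy2⟩ := hy
  have hyy : y ∈ connectedComponentIn G y := mem_connectedComponentIn hyG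
  obtain ⟨z, hz1, hz2⟩ := mem_closure_iff.mp hy1 _ hCy hyy
  have e1 := connectedComponentIn_eq hz1
  have e2 := connectedComponentIn_eq hz2
  rw [e1, ← e2] at hyy
  exact hy2 hyy

lemma frontier_nonempty_of {Q : Set (I × I)} (h1 : Q.Nonempty) (h2 : Q ≠ univ) : (frontier Q).Nonempty := by
  rw [nonempty_iff_ne_empty]
  intro h
  rcases isClopen_iff.mp (isClopen_iff_frontier_eq_empty.mpr h) with h3 | h3
  · exact h1.ne_empty h3
  · exact h2 h3

/-- The boundary of an open, non-dense, nonempty subset of the square is not totally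
disconnected. -/
lemma not_totallyDisconnected_frontier {V : Set (I × I)} (hV : IsOpen V) (hne : V.Nonempty)
    (hcl : closure V ≠ univ) : ¬ IsTotallyDisconnected (frontier V) := by
  intro htd
  obtain ⟨o, ho⟩ := hne
  set O := connectedComponentIn V o with hO
  have hOo : IsOpen O := hV.connectedComponentIn
  have hOV : O ⊆ V := connectedComponentIn_subset V o
  have hoO : o ∈ O := mem_connectedComponentIn ho
  have hOpre : IsPreconnected O := isPreconnected_connectedComponentIn
  have hOfr : frontier O ⊆ frontier V := by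
    intro y hy
    rw [hV.frontier_eq]
    exact ⟨closure_mono hOV (frontier_subset_closure hy), frontier_component_subset hV o hy⟩
  obtain ⟨p, hp⟩ : ((closure O)ᶜ).Nonempty := by
    rw [nonempty_compl]
    intro h
    exact hcl (univ_subset_iff.mp (h ▸ closure_mono hOV))
  set G := (closure O)ᶜ with hG
  have hGo : IsOpen G := isClosed_closure.isOpen_compl
  have hclG : closure G ⊆ Oᶜ := by
    rw [hG, closure_compl, compl_subset_compl]
    exact interior_maximal subset_closure hOo
  set P := connectedComponentIn G p with hP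
  have hPo : IsOpen P := hGo.connectedComponentIn
  have hPG : P ⊆ G := connectedComponentIn_subset G p
  have hpP : p ∈ P := mem_connectedComponentIn hp
  have hPpre : IsPreconnected P := isPreconnected_connectedComponentIn
  have hPfr : frontier P ⊆ frontier V := by
    intro y hy
    apply hOfr
    rw [hOo.frontier_eq]
    refine ⟨?_, hclG (closure_mono hPG (frontier_subset_closure hy))⟩
    have := frontier_component_subset hGo p hy
    rwa [hG, compl_compl] at this
  have hclO : closure O ⊆ Pᶜ := by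
    intro y hy hyP
    exact hPG hyP hy
  have hEpre : IsPreconnected Pᶜ := by
    refine isPreconnected_of_forall o ?_
    intro y hy
    by_cases hyO : y ∈ closure O
    · exact ⟨closure O, hclO, subset_closure hoO, hyO, hOpre.closure⟩
    · have hyG : y ∈ G := hyO
      set Q := connectedComponentIn G y with hQ
      have hQo : IsOpen Q := hGo.connectedComponentIn
      have hyQ : y ∈ Q := mem_connectedComponentIn hyG
      have hQP : Disjoint P Q := by
        rw [Set.disjoint_left]
        intro z hz1 hz2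
        have e1 := connectedComponentIn_eq hz1
        have e2 := connectedComponentIn_eq hz2
        apply hy
        rw [hP, e1, ← e2]
        exact hyQ
      have hoQ : o ∉ Q := fun h => (connectedComponentIn_subset G y h) (subset_closure hoO)
      obtain ⟨z, hz⟩ := frontier_nonempty_of ⟨y, hyQ⟩ (fun h => hoQ (h ▸ mem_univ o))
      have hzO : z ∈ closure O := by
        have := frontier_component_subset hGo y hz
        rwa [hG, compl_compl] at this
      have hzQ : z ∈ closure Q := frontier_subset_closure hz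
      have hQc : closure Q ⊆ Pᶜ := by
        have := hQP.closure_right hPo
        exact fun w hw hwP => (Set.disjoint_left.mp this) hwP hw
      refine ⟨closure O ∪ closure Q, union_subset hclO hQc, Or.inl (subset_closure hoO),
        Or.inr (subset_closure hyQ), ?_⟩
      exact IsPreconnected.union z hzO hzQ hOpre.closure isPreconnected_connectedComponentIn.closure
  have hun : Pᶜ ∪ closure P = univ := by
    rw [eq_univ_iff_forall]
    intro y
    by_cases h : y ∈ P
    · exact Or.inr (subset_closure h)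
    · exact Or.inl h
  have hfrpre : IsPreconnected (frontier P) := by
    have := unicoherent hPo.isClosed_compl isClosed_closure hun hEpre hPpre.closure
    rwa [hPo.frontier_eq, sdiff_eq, inter_comm]
  have hsub : (frontier P).Subsingleton := htd _ hPfr hfrpre
  obtain ⟨b, hb⟩ := frontier_nonempty_of ⟨p, hpP⟩ (fun h => by
    have : o ∈ P := h ▸ mem_univ o
    exact hclO (subset_closure hoO) this)
  have hbP : b ∉ P := by
    rw [hPo.frontier_eq] at hb
    exact hb.2
  have hoc : o ∉ closure P := fun h => hclG (closure_mono hPG h) hoO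
  have hpre := compl_singleton_preconnected b
  obtain ⟨z, -, hz1, hz2⟩ := hpre P (closure P)ᶜ hPo isClosed_closure.isOpen_compl
    (by
      intro x hx
      by_cases h : x ∈ P
      · exact Or.inl h
      · refine Or.inr fun h' => hx ?_
        have : x ∈ frontier P := by
          rw [hPo.frontier_eq]
          exact ⟨h', h⟩
        exact hsub this hb)
    ⟨p, fun h => hbP ((mem_singleton_iff.mp h) ▸ hpP), hpP⟩
    ⟨o, fun h => hoc ((mem_singleton_iff.mp h) ▸ frontier_subset_closure hb), hoc⟩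
  exact hz2 (subset_closure hz1)

/-! ### The space -/

lemma continuous_mk' : Continuous (fun q : ℝ × ℝ => (⟨q.1, q.2⟩ : ℂ)) :=
  Complex.equivRealProdCLM.symm.continuous

/-- The thickened `sin (1/t)` strip. -/
def strip : Set ℂ := {z | 0 < z.re ∧ z.re ≤ 1 ∧ |z.im - Real.sin (1 / z.re)| ≤ z.re}

/-- The limit segment. -/
def seg : Set ℂ := {z | z.re = 0 ∧ |z.im| ≤ 1}

/-- The space. -/
def space : Set ℂ := strip ∪ seg

lemma re_mem {z : ℂ} (hz : z ∈ space) : z.re ∈ Icc (0 : ℝ) 1 := by
  rcases hz with ⟨h1, h2, -⟩ | ⟨h1, -⟩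
  · exact ⟨h1.le, h2⟩
  · rw [h1]; exact ⟨le_rfl, zero_le_one⟩

lemma im_le {z : ℂ} (hz : z ∈ space) : |z.im| ≤ 1 + z.re := by
  rcases hz with ⟨h1, h2, h3⟩ | ⟨h1, h2⟩
  · have := Real.abs_sin_le_one (1 / z.re)
    calc |z.im| = |(z.im - Real.sin (1 / z.re)) + Real.sin (1 / z.re)| := by ring_nf
      _ ≤ |z.im - Real.sin (1 / z.re)| + |Real.sin (1 / z.re)| := abs_add_le _ _
      _ ≤ 1 + z.re := by linarith
  · rw [h1]; linarith

lemma isClosed_space : IsClosed space := by
  apply isClosed_of_closure_subset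
  intro z hz
  have hA : IsClosed {z : ℂ | z.re ∈ Icc (0 : ℝ) 1 ∧ |z.im| ≤ 1 + z.re} := by
    have e1 : IsClosed {z : ℂ | z.re ∈ Icc (0 : ℝ) 1} := isClosed_Icc.preimage Complex.continuous_re
    have e2 : IsClosed {z : ℂ | |z.im| ≤ 1 + z.re} :=
      isClosed_le Complex.continuous_im.abs (continuous_const.add Complex.continuous_re)
    exact e1.inter e2
  have hsub : space ⊆ {z : ℂ | z.re ∈ Icc (0 : ℝ) 1 ∧ |z.im| ≤ 1 + z.re} :=
    fun w hw => ⟨re_mem hw, im_le hw⟩
  have hzA : z ∈ {z : ℂ | z.re ∈ Icc (0 : ℝ) 1 ∧ |z.im| ≤ 1 + z.re} :=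
    closure_minimal hsub hA hz
  obtain ⟨⟨h0, h1⟩, h2⟩ := hzA
  rcases h0.eq_or_lt with h | h
  · right
    refine ⟨h.symm, ?_⟩
    rw [← h] at h2
    simpa using h2
  · left
    refine ⟨h, h1, ?_⟩
    by_contra hcon
    rw [not_le] at hcon
    have hne : z.re ≠ 0 := h.ne'
    have hcont : ContinuousAt (fun w : ℂ => |w.im - Real.sin (1 / w.re)| - w.re) z := by
      have : ContinuousAt (fun w : ℂ => 1 / w.re) z :=
        continuousAt_const.div Complex.continuous_re.continuousAt hne
      have h3 : ContinuousAt (fun w : ℂ => Real.sin (1 / w.re)) z :=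
        Real.continuous_sin.continuousAt.comp this
      exact ((Complex.continuous_im.continuousAt.sub h3).abs).sub Complex.continuous_re.continuousAt
    have e1 : ∀ᶠ w in 𝓝 z, 0 < |w.im - Real.sin (1 / w.re)| - w.re :=
      hcont.eventually_const_lt (by linarith)
    have e2 : ∀ᶠ w in 𝓝 z, 0 < w.re := Complex.continuous_re.continuousAt.eventually_const_lt h
    obtain ⟨w, ⟨hw1, hw2⟩, hw⟩ := mem_closure_iff_nhds.mp hz _ (e1.and e2)
    rcases hw with ⟨-, -, h5⟩ | ⟨h5, -⟩
    · linarith
    · linarith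

lemma isCompact_space : IsCompact space := by
  refine Metric.isCompact_of_isClosed_isBounded isClosed_space ?_
  refine (Metric.isBounded_closedBall (x := (0 : ℂ)) (r := 3)).subset ?_
  intro z hz
  rw [mem_closedBall_zero_iff]
  have h1 := re_mem hz
  have h2 := im_le hz
  have h3 := Complex.norm_le_abs_re_add_abs_im z
  have h4 : |z.re| ≤ 1 := abs_le.mpr ⟨by linarith [h1.1], h1.2⟩
  linarith [h1.2]

/-- A parametrization of the strip. -/
noncomputable def par (t v : ℝ) : ℂ := ⟨t, Real.sin (1 / t) + v * t⟩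

lemma par_mem {t v : ℝ} (h0 : 0 < t) (h1 : t ≤ 1) (hv : |v| ≤ 1) : par t v ∈ strip := by
  refine ⟨h0, h1, ?_⟩
  simp only [par, add_sub_cancel_left, abs_mul, abs_of_pos h0]
  exact mul_le_of_le_one_left h0.le hv

lemma exists_par {z : ℂ} (hz : z ∈ strip) : ∃ v : ℝ, |v| ≤ 1 ∧ par z.re v = z := by
  obtain ⟨h0, h1, h2⟩ := hz
  refine ⟨(z.im - Real.sin (1 / z.re)) / z.re, ?_, ?_⟩
  · rw [abs_div, abs_of_pos h0, div_le_one h0]
    exact h2
  · apply Complex.ext
    · rfl
    · simp only [par]
      field_simp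
      ring

lemma isPreconnected_strip : IsPreconnected strip := by
  have h : strip = (fun q : ℝ × ℝ => par q.1 q.2) '' (Ioc 0 1 ×ˢ Icc (-1) 1) := by
    ext z
    constructor
    · intro hz
      obtain ⟨v, hv, hv'⟩ := exists_par hz
      exact ⟨(z.re, v), ⟨⟨hz.1, hz.2.1⟩, abs_le.mp hv⟩, hv'⟩
    · rintro ⟨⟨t, v⟩, ⟨⟨h0, h1⟩, hv⟩, rfl⟩
      exact par_mem h0 h1 (abs_le.mpr hv)
  rw [h]
  apply IsPreconnected.image
  · exact isPreconnected_Ioc.prod isPreconnected_Icc
  · have h1 : ContinuousOn (fun q : ℝ × ℝ => 1 / q.1) (Ioc 0 1 ×ˢ Icc (-1) 1) := by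
      apply ContinuousOn.div continuousOn_const continuousOn_fst
      rintro ⟨t, v⟩ ⟨⟨h0, -⟩, -⟩
      exact h0.ne'
    have h2 : ContinuousOn (fun q : ℝ × ℝ => Real.sin (1 / q.1) + q.2 * q.1)
        (Ioc 0 1 ×ˢ Icc (-1) 1) :=
      (Real.continuous_sin.comp_continuousOn h1).add (continuousOn_snd.mul continuousOn_fst)
    exact continuous_mk'.comp_continuousOn (continuousOn_fst.prodMk h2)

/-- The oscillation: arbitrarily small `t` with `sin (1/t) = y`. -/
lemma exists_small {y : ℝ} (hy : |y| ≤ 1) {ε : ℝ} (hε : 0 < ε) :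
    ∃ t : ℝ, 0 < t ∧ t ≤ 1 ∧ t < ε ∧ Real.sin (1 / t) = y := by
  obtain ⟨n, hn⟩ := exists_nat_gt (1 / ε)
  have hpi := Real.pi_gt_three
  have ha := Real.neg_pi_div_two_le_arcsin y
  have hn0 : (0 : ℝ) ≤ n := Nat.cast_nonneg n
  set D := Real.arcsin y + (n + 1 : ℕ) * (2 * Real.pi) with hD
  have hDn : (n : ℝ) + 1 < D := by
    rw [hD]
    push_cast
    nlinarith
  have hD0 : 0 < D := by linarith
  refine ⟨1 / D, by positivity, ?_, ?_, ?_⟩
  · rw [div_le_one hD0]; linarith
  · rw [div_lt_comm₀ hD0 hε]; linarith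
  · rw [one_div_one_div, hD, Real.sin_add_nat_mul_two_pi]
    exact Real.sin_arcsin (abs_le.mp hy).1 (abs_le.mp hy).2

lemma seg_subset_closure : seg ⊆ closure strip := by
  rintro z ⟨hz0, hz1⟩
  rw [Metric.mem_closure_iff]
  intro ε hε
  obtain ⟨t, ht0, ht1, htε, hts⟩ := exists_small hz1 hε
  refine ⟨par t 0, par_mem ht0 ht1 (by simp), ?_⟩
  have h2 : z - par t 0 = ((-t : ℝ) : ℂ) := by
    apply Complex.ext
    · simp [par, hz0]
    · simp only [par, Complex.sub_im, Complex.ofReal_im, hts]
      ring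
  rw [dist_eq_norm, h2, Complex.norm_real, Real.norm_eq_abs, abs_neg, abs_of_pos ht0]
  exact htε

lemma space_subset_closure : space ⊆ closure strip :=
  union_subset subset_closure seg_subset_closure

lemma isConnected_space : IsConnected space := by
  refine ⟨⟨par 1 0, Or.inl (par_mem one_pos le_rfl (by simp))⟩, ?_⟩
  exact isPreconnected_strip.subset_closure subset_union_left space_subset_closure

/-! ### Local dimension -/

/-- The part of the strip over `[δ, 1]`, parametrized by the square. -/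
noncomputable def sq (δ : ℝ) (z : I × I) : ℂ := par (δ + (1 - δ) * z.1) (2 * z.2 - 1)

lemma sq_aux {δ : ℝ} (h0 : 0 < δ) (h1 : δ < 1) (s : I) :
    0 < δ + (1 - δ) * (s : ℝ) ∧ δ + (1 - δ) * (s : ℝ) ≤ 1 := by
  have hs0 := s.2.1
  have hs1 := s.2.2
  constructor
  · nlinarith
  · nlinarith

lemma sq_mem {δ : ℝ} (h0 : 0 < δ) (h1 : δ < 1) (z : I × I) : sq δ z ∈ strip := by
  obtain ⟨ha, hb⟩ := sq_aux h0 h1 z.1
  refine par_mem ha hb (abs_le.mpr ⟨?_, ?_⟩)
  · linarith [z.2.2.1]
  · linarith [z.2.2.2]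

/-- The same, as a map into the space. -/
noncomputable def sqm {δ : ℝ} (h0 : 0 < δ) (h1 : δ < 1) (z : I × I) : space :=
  ⟨sq δ z, Or.inl (sq_mem h0 h1 z)⟩

lemma continuous_sqm {δ : ℝ} (h0 : 0 < δ) (h1 : δ < 1) : Continuous (sqm h0 h1) := by
  apply Continuous.subtype_mk
  have h2 : Continuous (fun z : I × I => δ + (1 - δ) * (z.1 : ℝ)) := by fun_prop
  have h3 : Continuous (fun z : I × I => 1 / (δ + (1 - δ) * (z.1 : ℝ))) :=
    continuous_const.div h2 (fun z => (sq_aux h0 h1 z.1).1.ne')
  have h4 : Continuous (fun z : I × I => Real.sin (1 / (δ + (1 - δ) * (z.1 : ℝ))) +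
      (2 * (z.2 : ℝ) - 1) * (δ + (1 - δ) * (z.1 : ℝ))) := by
    exact (Real.continuous_sin.comp h3).add (by fun_prop)
  exact continuous_mk'.comp (h2.prodMk h4)

lemma injective_sqm {δ : ℝ} (h0 : 0 < δ) (h1 : δ < 1) : Function.Injective (sqm h0 h1) := by
  rintro ⟨s, u⟩ ⟨s', u'⟩ h
  have h' : sq δ (s, u) = sq δ (s', u') := congrArg Subtype.val h
  have hre := congrArg Complex.re h'
  have him := congrArg Complex.im h'
  simp only [sq, par] at hre him
  have hs : (s : ℝ) = s' := by
    have : (1 - δ) * (s : ℝ) = (1 - δ) * s' := by linarith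
    exact mul_left_cancel₀ (by linarith) this
  have hs' : s = s' := Subtype.ext hs
  subst hs'
  have hpos := (sq_aux h0 h1 s).1
  have hu : (u : ℝ) = u' := by
    have : (2 * (u : ℝ) - 1) * (δ + (1 - δ) * s) = (2 * (u' : ℝ) - 1) * (δ + (1 - δ) * s) := by
      linarith
    have := mul_right_cancel₀ hpos.ne' this
    linarith
  rw [Subtype.ext hu]

lemma exists_sqm {δ : ℝ} (h0 : 0 < δ) (h1 : δ < 1) {z : space} (hz : (z : ℂ) ∈ strip)
    (hδ : δ ≤ (z : ℂ).re) : ∃ q, sqm h0 h1 q = z := by
  obtain ⟨v, hv, hv'⟩ := exists_par hz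
  obtain ⟨hv1, hv2⟩ := abs_le.mp hv
  have hpos : 0 < 1 - δ := by linarith
  refine ⟨(⟨((z : ℂ).re - δ) / (1 - δ), ?_⟩, ⟨(v + 1) / 2, ?_⟩), ?_⟩
  · constructor
    · exact div_nonneg (by linarith) hpos.le
    · rw [div_le_one hpos]; linarith [hz.2.1]
  · constructor <;> linarith
  · apply Subtype.ext
    simp only [sqm, sq]
    have e1 : δ + (1 - δ) * (((z : ℂ).re - δ) / (1 - δ)) = (z : ℂ).re := by
      field_simp
      ring
    have e2 : 2 * ((v + 1) / 2) - 1 = v := by ring
    rw [e1, e2, hv']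

lemma not_localDimLE_one (x : space) : ¬ LocalDimLE 1 x := by
  intro h
  obtain ⟨V, hVo, hxV, hVU, hfr⟩ := h (Metric.ball x (1 / 4)) (Metric.ball_mem_nhds x (by norm_num))
  have htd : TotallyDisconnectedSpace (frontier V) := totallyDisconnectedSpace_of_dimLT_one hfr
  have htd' : IsTotallyDisconnected (frontier V) := totallyDisconnectedSpace_subtype_iff.mp htd
  -- a point of the strip in `V`
  obtain ⟨W, hWo, rfl⟩ := isOpen_induced_iff.mp hVo
  obtain ⟨z, hzW, hz⟩ := mem_closure_iff.mp (space_subset_closure x.2) W hWo hxV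
  set δ := min z.re (1 / 3) with hδ
  have h0 : 0 < δ := lt_min hz.1 (by norm_num)
  have h13 : δ ≤ 1 / 3 := min_le_right _ _
  have h1 : δ < 1 := by linarith
  obtain ⟨q, hq⟩ := exists_sqm h0 h1 (z := ⟨z, Or.inl hz⟩) hz (min_le_left _ _)
  set V' := sqm h0 h1 ⁻¹' (Subtype.val ⁻¹' W) with hV'
  have hV'o : IsOpen V' := (hWo.preimage continuous_subtype_val).preimage (continuous_sqm h0 h1)
  have hne : V'.Nonempty := ⟨q, by
    rw [hV', mem_preimage, hq]
    exact hzW⟩
  have hcl : closure V' ≠ univ := by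
    intro hcl
    have hsub : closure V' ⊆ sqm h0 h1 ⁻¹' (Metric.closedBall x (1 / 4)) := by
      apply closure_minimal
      · exact fun w hw => Metric.ball_subset_closedBall (hVU hw)
      · exact Metric.isClosed_closedBall.preimage (continuous_sqm h0 h1)
    have ha : sqm h0 h1 (0, 0) ∈ Metric.closedBall x (1 / 4) := hsub (hcl ▸ mem_univ _)
    have hb : sqm h0 h1 (1, 0) ∈ Metric.closedBall x (1 / 4) := hsub (hcl ▸ mem_univ _)
    have hd : dist (sqm h0 h1 (0, 0)) (sqm h0 h1 (1, 0)) ≤ 1 / 2 := by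
      calc dist (sqm h0 h1 (0, 0)) (sqm h0 h1 (1, 0))
          ≤ dist (sqm h0 h1 (0, 0)) x + dist (sqm h0 h1 (1, 0)) x := dist_triangle_right _ _ _
        _ ≤ 1 / 2 := by
          have := Metric.mem_closedBall.mp ha
          have := Metric.mem_closedBall.mp hb
          linarith
    rw [Subtype.dist_eq, dist_eq_norm] at hd
    have hre := (Complex.abs_re_le_norm _).trans hd
    simp only [sqm, sq, par, Complex.sub_re, Icc.coe_zero, Icc.coe_one] at hre
    have := (abs_le.mp hre).1
    linarith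
  apply not_totallyDisconnected_frontier hV'o hne hcl
  intro t ht htp
  have hsub : sqm h0 h1 '' t ⊆ frontier (Subtype.val ⁻¹' W) := by
    rintro _ ⟨w, hw, rfl⟩
    exact (continuous_sqm h0 h1).frontier_preimage_subset _ (ht hw)
  have := htd' _ hsub (htp.image _ (continuous_sqm h0 h1).continuousOn)
  intro a ha b hb
  exact injective_sqm h0 h1 (this (mem_image_of_mem _ ha) (mem_image_of_mem _ hb))

lemma localDimEq_two (x : space) : LocalDimEq 2 x := by
  refine ⟨localDimLE_two x, ?_⟩
  intro m hm h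
  interval_cases m
  · exact not_localDimLE_one x (localDimLE_one_of_zero h)
  · exact not_localDimLE_one x h

/-! ### The map -/

/-- The projection to the first coordinate. -/
noncomputable def proj (z : space) : I := ⟨(z : ℂ).re, re_mem z.2⟩

lemma continuous_proj : Continuous proj := by
  apply Continuous.subtype_mk
  exact Complex.continuous_re.comp continuous_subtype_val

lemma surjective_proj : Function.Surjective proj := by
  intro t
  rcases t.2.1.eq_or_lt with h | h
  · exact ⟨⟨0, Or.inr (by simp [seg])⟩, Subtype.ext (by simp [proj, ← h])⟩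
  · exact ⟨⟨par t 0, Or.inl (par_mem h t.2.2 (by simp))⟩, Subtype.ext (by simp [proj, par])⟩

/-- The limit segment as a subset of the space, parametrized. -/
noncomputable def segm (y : Icc (-1 : ℝ) 1) : space :=
  ⟨⟨0, y⟩, Or.inr ⟨rfl, abs_le.mpr y.2⟩⟩

lemma continuous_segm : Continuous segm := by
  apply Continuous.subtype_mk
  exact continuous_mk'.comp (continuous_const.prodMk continuous_subtype_val)

lemma isConnected_fiber (t : I) : IsConnected (proj ⁻¹' {t}) := by
  rcases t.2.1.eq_or_lt with h | h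
  · have : proj ⁻¹' {t} = range segm := by
      ext z
      constructor
      · intro hz
        have hz0 : (z : ℂ).re = 0 := by
          have := congrArg Subtype.val (mem_singleton_iff.mp hz)
          simp only [proj] at this
          rw [this, ← h]
        rcases z.2 with h1 | h1
        · exact absurd hz0 h1.1.ne'
        · exact ⟨⟨(z : ℂ).im, abs_le.mp h1.2⟩, Subtype.ext (Complex.ext hz0.symm rfl)⟩
      · rintro ⟨y, rfl⟩
        exact Subtype.ext (by simp [proj, segm, ← h])
    rw [this]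
    have : ConnectedSpace (Icc (-1 : ℝ) 1) :=
      isConnected_iff_connectedSpace.mp (isConnected_Icc (by norm_num))
    exact isConnected_range continuous_segm
  · let g : Icc (-1 : ℝ) 1 → space := fun v => ⟨par t v, Or.inl (par_mem h t.2.2 (abs_le.mpr v.2))⟩
    have hg : Continuous g := by
      apply Continuous.subtype_mk
      have h4 : Continuous (fun v : Icc (-1 : ℝ) 1 => Real.sin (1 / (t : ℝ)) + (v : ℝ) * t) := by
        fun_prop
      exact continuous_mk'.comp (continuous_const.prodMk h4)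
    have : proj ⁻¹' {t} = range g := by
      ext z
      constructor
      · intro hz
        have hz0 : (z : ℂ).re = t := congrArg Subtype.val (mem_singleton_iff.mp hz)
        rcases z.2 with h1 | h1
        · obtain ⟨v, hv, hv'⟩ := exists_par h1
          refine ⟨⟨v, abs_le.mp hv⟩, Subtype.ext ?_⟩
          simp only [g]
          rw [← hz0, hv']
        · exact absurd (hz0.symm.trans h1.1) h.ne'
      · rintro ⟨y, rfl⟩
        exact Subtype.ext (by simp [proj, g, par])
    rw [this]
    have : ConnectedSpace (Icc (-1 : ℝ) 1) :=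
      isConnected_iff_connectedSpace.mp (isConnected_Icc (by norm_num))
    exact isConnected_range hg

lemma segm_mem {K : Set space} (hK : IsClosed K) (hfK : proj '' K = univ) (y : Icc (-1 : ℝ) 1) :
    segm y ∈ K := by
  rw [← hK.closure_eq, Metric.mem_closure_iff]
  intro ε hε
  obtain ⟨t, ht0, ht1, htε, hts⟩ := exists_small (abs_le.mpr y.2) (half_pos hε)
  obtain ⟨k, hk, hkt⟩ := hfK.symm ▸ mem_univ (⟨t, ht0.le, ht1⟩ : I)
  refine ⟨k, hk, ?_⟩
  have hre : (k : ℂ).re = t := congrArg Subtype.val hkt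
  have him : |(k : ℂ).im - y| ≤ t := by
    rcases k.2 with h | h
    · have := h.2.2
      rwa [hre, hts] at this
    · exact absurd (hre.symm.trans h.1) ht0.ne'
  rw [Subtype.dist_eq, dist_eq_norm]
  calc ‖((segm y : space) : ℂ) - k‖ ≤ |(((segm y : space) : ℂ) - k).re| +
        |(((segm y : space) : ℂ) - k).im| := Complex.norm_le_abs_re_add_abs_im _
    _ = t + |(k : ℂ).im - y| := by
        simp only [segm, Complex.sub_re, Complex.sub_im, hre]
        rw [zero_sub, abs_neg, abs_of_pos ht0, abs_sub_comm]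
    _ < ε := by linarith

/-- **Main theorem.**  There is a planar continuum `X`, two-dimensional at each of its points,
and a (monotone) map `f` of `X` onto the unit interval such that every closed `K ⊆ X` with
`f(K) = I` has positive dimension. -/
theorem result :
    ∃ X : Set ℂ, IsCompact X ∧ IsConnected X ∧ (∀ x : X, LocalDimEq 2 x) ∧
      ∃ f : X → unitInterval, Continuous f ∧ Function.Surjective f ∧
        (∀ t, IsConnected (f ⁻¹' {t})) ∧
        ∀ K : Set X, IsClosed K → f '' K = Set.univ → ¬ IsTotallyDisconnected K ∧ ¬ DimLT 1 K := by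
  refine ⟨space, isCompact_space, isConnected_space, localDimEq_two, proj, continuous_proj,
    surjective_proj, isConnected_fiber, ?_⟩
  intro K hK hfK
  have hnt : ¬ IsTotallyDisconnected K := by
    intro htd
    have hsub : range segm ⊆ K := by
      rintro _ ⟨y, rfl⟩
      exact segm_mem hK hfK y
    have : PreconnectedSpace (Icc (-1 : ℝ) 1) :=
      isPreconnected_iff_preconnectedSpace.mp isPreconnected_Icc
    have hs := htd _ hsub (isPreconnected_range continuous_segm)
    have h01 : segm ⟨0, by norm_num⟩ = segm ⟨1, by norm_num⟩ := hs ⟨_, rfl⟩ ⟨_, rfl⟩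
    have := congrArg Complex.im (congrArg Subtype.val h01)
    simp [segm] at this
  refine ⟨hnt, fun h => hnt ?_⟩
  exact totallyDisconnectedSpace_subtype_iff.mp (totallyDisconnectedSpace_of_dimLT_one h)

end Pool.Agent.Results.MP_b0a983_gt.Counterexample
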